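import Pool.Agent.Q294.R210.Stm

/-!
# Rule 210: the alternating count
-/

set_option autoImplicit false

namespace Pool.Agent.Q294.R210

open MeasureTheory ProbabilityTheory
open scoped ENNReal

noncomputable section

lemma oo_of_true {n : ℕ} {x : ZMod n → Bool} {i : ZMod n} (h : x (i + 1) = true) : oo x i :=
  ⟨0, by simp, by simpa using h, by simp⟩

lemma not_oo_succ {n : ℕ} {x : ZMod n → Bool} {i : ZMod n} (h : x (i + 1) = false)
    (ho : oo x i) : ¬ oo x (i + 1) := by
  rintro ⟨k', he', ht', hf'⟩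
  obtain ⟨k, he, ht, hf⟩ := ho
  have hk : k ≠ 0 := by
    rintro rfl
    simp [h] at ht
  obtain ⟨m, rfl⟩ := Nat.exists_eq_succ_of_ne_zero hk
  have e1 : i + 1 + ((m.succ : ℕ) : ZMod n) = i + 1 + 1 + (m : ZMod n) := by push_cast; ring
  have e2 : i + 1 + ((k' + 1 : ℕ) : ZMod n) = i + 1 + 1 + (k' : ZMod n) := by push_cast; ring
  rw [e1] at ht
  rcases lt_trichotomy m k' with h1 | h1 | h1
  · rw [hf' m h1] at ht
    exact Bool.false_ne_true ht
  · subst h1
    exact (Nat.even_add_one.1 he) he'
  · have := hf (k' + 1) (by omega)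
    rw [e2, ht'] at this
    exact Bool.false_ne_true this.symm

lemma oo_of_not {n : ℕ} [NeZero n] {x : ZMod n → Bool} {i : ZMod n} (hx : ∃ j, x j = true)
    (h : x (i + 1) = false) (ho : ¬ oo x (i + 1)) : oo x i := by
  obtain ⟨j, hj⟩ := hx
  have hex : ∃ k : ℕ, x (i + 1 + 1 + k) = true := by
    refine ⟨(j - (i + 1 + 1)).val, ?_⟩
    rw [ZMod.natCast_zmod_val, add_sub_cancel]
    exact hj
  classical
  have h1 := Nat.find_spec hex
  have h2 := fun m (hm : m < Nat.find hex) => Nat.find_min hex hm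
  set k := Nat.find hex
  have hk : ¬ Even k := fun he => ho ⟨k, he, h1, fun m hm => by simpa using h2 m hm⟩
  refine ⟨k + 1, Nat.even_add_one.2 hk, ?_, ?_⟩
  · have e2 : i + 1 + ((k + 1 : ℕ) : ZMod n) = i + 1 + 1 + (k : ZMod n) := by push_cast; ring
    rw [e2]
    exact h1
  · intro m hm
    cases m with
    | zero => simpa using h
    | succ m =>
      have e2 : i + 1 + ((m + 1 : ℕ) : ZMod n) = i + 1 + 1 + (m : ZMod n) := by push_cast; ring
      rw [e2]
      simpa using h2 m (by omega)

open Classical in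
lemma UU_le_card {n : ℕ} [NeZero n] {x : ZMod n → Bool} (hx : ∃ j, x j = true)
    (y : ZMod n → Bool) :
    UU y ≤ ∑ j : ZMod n, if y j = false ∧ (oo x (j - 1) ∨ y (j + 1) = true) then (1 : ℝ) else 0 := by
  unfold UU
  rw [tsum_fintype, ← Finset.sum_filter, ← Finset.sum_filter, Finset.sum_const, Finset.sum_const,
    nsmul_eq_mul, nsmul_eq_mul, mul_one, mul_one, Nat.cast_le]
  refine Finset.card_le_card_of_injOn
    (fun j => if y j = false ∧ (oo x (j - 1) ∨ y (j + 1) = true) then j else j + 1) ?_ ?_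
  · intro j hj
    simp only [Finset.coe_filter, Finset.mem_univ, true_and, Set.mem_ofPred_eq] at hj ⊢
    split_ifs with h
    · exact h
    · have h' : ¬ (oo x (j - 1) ∨ y (j + 1) = true) := fun h' => h ⟨hj.1, h'⟩
      rw [not_or] at h'
      have h1 : y (j + 1) = false := by simpa using h'.2
      have h2 : x (j - 1 + 1) = false := by
        by_contra hc
        exact h'.1 (oo_of_true (by simpa using hc))
      have h3 : oo x (j - 1 + 1) := by
        by_contra hc
        exact h'.1 (oo_of_not hx h2 hc)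
      refine ⟨h1, Or.inl ?_⟩
      rw [sub_add_cancel] at h3
      rw [add_sub_cancel_right]
      exact h3
  · intro j1 hj1 j2 hj2 h12
    simp only [Finset.coe_filter, Finset.mem_univ, true_and, Set.mem_ofPred_eq] at hj1 hj2
    simp only at h12
    split_ifs at h12 with h1 h2 h2
    · exact h12
    · exfalso
      subst h12
      exact not_oo_succ hj1.1 hj2.2 hj1.2
    · exfalso
      subst h12
      exact not_oo_succ hj2.1 hj1.2 hj2.2
    · exact add_right_cancel h12

open Classical in
lemma local_bound (a : ℝ) (h0 : 0 < a) (h1 : a < 1) (o : Prop) (e0 e1 e2 e3 e4 e5 : Bool)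
    (c1 : e1 = true → o) (c2 : e1 = false → e2 = true → ¬ o)
    (c3 : e1 = false → e2 = false → e3 = true → o)
    (c4 : e1 = false → e2 = false → e3 = false → e4 = true → ¬ o) :
    E4 a (fun b0 b1 _ _ => if b0 = false ∧ (o ∨ b1 = true) then (1 : ℝ) else 0) e0 e1 e2 e3 e4 e5 ≤
      (if e0 = false ∧ o then (1 : ℝ) else 0) + WW a e0 e1 e2 e3 e4 := by
  have k1 : 0 ≤ (1 - a) := by linarith
  have k2 : 0 ≤ a * (1 - a) := mul_nonneg h0.le k1
  by_cases ho : o
  · cases e0 <;> cases e1 <;> cases e2 <;> cases e3 <;> cases e4 <;> cases e5 <;>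
      simp [ho] at c1 c2 c3 c4 <;>
      simp [E4, q, f210, WW, ho] <;> nlinarith [k1, k2]
  · cases e0 <;> cases e1 <;> cases e2 <;> cases e3 <;> cases e4 <;> cases e5 <;>
      simp [ho] at c1 c2 c3 c4 <;>
      simp [E4, q, f210, WW, ho] <;> nlinarith [k1, k2]

theorem alt (hS : S_four) : S_alt := by
  classical
  intro a h0 h1 n hn _ x hx
  have e1 : ∫ c, UU (step x c) ∂(mu a n) ≤ ∫ c, ∑ j : ZMod n, (if (step x c) j = false ∧
      (oo x (j - 1) ∨ (step x c) (j + 1) = true) then (1 : ℝ) else 0) ∂(mu a n) :=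
    integral_mono Integrable.of_finite Integrable.of_finite fun c => UU_le_card hx (step x c)
  refine e1.trans ?_
  rw [integral_finsetSum _ fun i _ => Integrable.of_finite]
  have e2 : ∀ j : ZMod n, ∫ c, (if (step x c) j = false ∧
      (oo x (j - 1) ∨ (step x c) (j + 1) = true) then (1 : ℝ) else 0) ∂(mu a n) ≤
      (if x (j - 1) = false ∧ oo x (j - 1) then (1 : ℝ) else 0) +
      WW a (x (j - 1)) (x j) (x (j + 1)) (x (j + 2)) (x (j + 3)) := by
    intro j
    have := hS a h0 h1 n hn x (fun b0 b1 _ _ => if b0 = false ∧ (oo x (j - 1) ∨ b1 = true)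
      then (1 : ℝ) else 0) j
    rw [this]
    have r0 : j - 1 + 1 = j := by ring
    have d1 : ∀ i : ZMod n, x (i + 1) = false → x (i + 2) = true → ¬ oo x i := by
      intro i hi1 hi2 ho
      refine not_oo_succ hi1 ho (oo_of_true ?_)
      rw [show i + 1 + 1 = i + 2 by ring]
      exact hi2
    have d2 : ∀ i : ZMod n, x (i + 1) = false → x (i + 2) = false → x (i + 3) = true →
        oo x i := by
      intro i hi1 hi2 hi3
      refine oo_of_not hx hi1 (d1 (i + 1) ?_ ?_)
      · rw [show i + 1 + 1 = i + 2 by ring]; exact hi2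
      · rw [show i + 1 + 2 = i + 3 by ring]; exact hi3
    refine local_bound a h0 h1 (oo x (j - 1)) _ _ _ _ _ _ ?_ ?_ ?_ ?_
    · intro h
      exact oo_of_true (by rw [r0]; exact h)
    · intro h h'
      refine d1 (j - 1) (by rw [r0]; exact h) ?_
      rw [show j - 1 + 2 = j + 1 by ring]; exact h'
    · intro h h' h2
      refine d2 (j - 1) (by rw [r0]; exact h) ?_ ?_
      · rw [show j - 1 + 2 = j + 1 by ring]; exact h'
      · rw [show j - 1 + 3 = j + 2 by ring]; exact h2
    · intro h h' h2 h3 ho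
      refine not_oo_succ (by rw [r0]; exact h) ho ?_
      rw [r0]
      exact d2 j h' h2 h3
  refine (Finset.sum_le_sum fun j _ => e2 j).trans ?_
  rw [Finset.sum_add_distrib]
  have e3 : ∑ j : ZMod n, (if x (j - 1) = false ∧ oo x (j - 1) then (1 : ℝ) else 0) = UU x := by
    unfold UU
    rw [tsum_fintype]
    exact Equiv.sum_comp (Equiv.subRight (1 : ZMod n))
      fun i => if x i = false ∧ oo x i then (1 : ℝ) else 0
  rw [e3]

end

end Pool.Agent.Q294.R210
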