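import Pool.Agent.Q294.R210.Tab

/-!
# Rule 210: the certificate (two times 64 polynomial inequalities)
-/

set_option autoImplicit false

namespace Pool.Agent.Q294.R210

lemma certS (a : ℝ) (ha : 0 < a) (h : a ≤ 1 / 2) (e0 e1 e2 e3 e4 e5 : Bool) :
    E4 a (phiS a) e0 e1 e2 e3 e4 e5 - phiS a e1 e2 e3 e4 +
      (if e0 = false ∧ e1 = true then a ^ 2 else 0) ≤
    psiS a e1 e2 e3 e4 e5 - psiS a e0 e1 e2 e3 e4 := by
  have hy : 0 ≤ 1 - 2 * a := by linarith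
  have b0 := pow_nonneg hy 5
  have b1 := mul_nonneg ha.le (pow_nonneg hy 4)
  have b2 := mul_nonneg (pow_nonneg ha.le 2) (pow_nonneg hy 3)
  have b3 := mul_nonneg (pow_nonneg ha.le 3) (pow_nonneg hy 2)
  have b4 := mul_nonneg (pow_nonneg ha.le 4) hy
  have b5 := pow_nonneg ha.le 5
  cases e0 <;> cases e1 <;> cases e2 <;> cases e3 <;> cases e4 <;> cases e5 <;>
    simp [E4, q, f210, phiS, psiS] <;>
    nlinarith [b0, b1, b2, b3, b4, b5]

lemma certL (a : ℝ) (h : 1 / 2 ≤ a) (h1 : a < 1) (e0 e1 e2 e3 e4 e5 : Bool) :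
    E4 a (phiL (1 - a)) e0 e1 e2 e3 e4 e5 - phiL (1 - a) e1 e2 e3 e4 +
      uw (1 - a) * WW a e0 e1 e2 e3 e4 +
      (if e0 = false ∧ e1 = true then (1 - a) ^ 3 else 0) ≤
    psiL (1 - a) e1 e2 e3 e4 e5 - psiL (1 - a) e0 e1 e2 e3 e4 := by
  obtain ⟨e, rfl⟩ : ∃ e, a = 1 - e := ⟨1 - a, by ring⟩
  have he : 0 < e := by linarith
  have hy : 0 ≤ 1 - 2 * e := by linarith
  have b0 := pow_nonneg hy 7
  have b1 := mul_nonneg he.le (pow_nonneg hy 6)
  have b2 := mul_nonneg (pow_nonneg he.le 2) (pow_nonneg hy 5)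
  have b3 := mul_nonneg (pow_nonneg he.le 3) (pow_nonneg hy 4)
  have b4 := mul_nonneg (pow_nonneg he.le 4) (pow_nonneg hy 3)
  have b5 := mul_nonneg (pow_nonneg he.le 5) (pow_nonneg hy 2)
  have b6 := mul_nonneg (pow_nonneg he.le 6) hy
  have b7 := pow_nonneg he.le 7
  have hs : 1 - (1 - e) = e := by ring
  rw [hs]
  cases e0 <;> cases e1 <;> cases e2 <;> cases e3 <;> cases e4 <;> cases e5 <;>
    simp [E4, q, f210, phiL, psiL, WW, uw] <;>
    nlinarith [b0, b1, b2, b3, b4, b5, b6, b7]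

end Pool.Agent.Q294.R210
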