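import Pool.Agent.Q294.R210.Stm
import Pool.Agent.Q294.Cookie.Geo

/-!
# Rule 210: the Lyapunov criterion on the path space
-/

set_option autoImplicit false

namespace Pool.Agent.Q294.R210

open MeasureTheory ProbabilityTheory
open scoped ENNReal
open _root_.Q294.Cookie (cons measurable_cons cons_law)

noncomputable section

lemma step_fixed {n : ℕ} {x : ZMod n → Bool} (hx : IsFixed x) (c : ZMod n → Bool) :
    step x c = x := by
  funext i
  unfold step
  rw [hx i, ite_self]

lemma traj_fixed {n : ℕ} {x : ZMod n → Bool} (hx : IsFixed x) (ω : ℕ → ZMod n → Bool) (t : ℕ) :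
    traj x ω t = x := by
  induction t with
  | zero => rfl
  | succ t ih => rw [traj, ih, step_fixed hx]

lemma traj_cons {n : ℕ} (x : ZMod n → Bool) (c : ZMod n → Bool) (ω : ℕ → ZMod n → Bool) (t : ℕ) :
    traj x (cons c ω) (t + 1) = traj (step x c) ω t := by
  induction t with
  | zero => rfl
  | succ t ih => rw [traj, ih]; rfl

lemma fixed_mono {n : ℕ} (x : ZMod n → Bool) (ω : ℕ → ZMod n → Bool) {s t : ℕ} (h : s ≤ t)
    (hs : IsFixed (traj x ω s)) : IsFixed (traj x ω t) := by
  induction h with
  | refl => exact hs
  | step _ ih => rw [traj, step_fixed ih]; exact ih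

lemma measurable_traj {n : ℕ} [NeZero n] (x : ZMod n → Bool) (t : ℕ) :
    Measurable fun ω : ℕ → ZMod n → Bool => traj x ω t := by
  induction t with
  | zero => exact measurable_const
  | succ t ih =>
    exact (measurable_of_finite fun p : (ZMod n → Bool) × (ZMod n → Bool) => step p.1 p.2).comp
      (ih.prodMk (measurable_pi_apply t))

open Classical in
/-- the indicator of the event that the configuration at time `t` is not fixed -/
def nf {n : ℕ} (x : ZMod n → Bool) (t : ℕ) (ω : ℕ → ZMod n → Bool) : ℝ≥0∞ :=
  if IsFixed (traj x ω t) then 0 else 1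

lemma measurable_nf {n : ℕ} [NeZero n] (x : ZMod n → Bool) (t : ℕ) : Measurable (nf x t) := by
  classical
  exact (measurable_of_finite fun y : ZMod n → Bool => if IsFixed y then (0 : ℝ≥0∞) else 1).comp
    (measurable_traj x t)

lemma lintegral_cons {n : ℕ} (a : ℝ) {F : (ℕ → ZMod n → Bool) → ℝ≥0∞} (hF : Measurable F) :
    ∫⁻ ω, F ω ∂(PP a n) = ∫⁻ c, ∫⁻ ω, F (cons c ω) ∂(PP a n) ∂(mu a n) := by
  unfold PP
  conv_lhs => rw [← cons_law (mu a n)]
  rw [lintegral_map hF measurable_cons,
    lintegral_prod (fun p : (ZMod n → Bool) × (ℕ → ZMod n → Bool) => F (cons p.1 p.2))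
      (hF.comp measurable_cons).aemeasurable]

lemma TT_le {n : ℕ} (x : ZMod n → Bool) (ω : ℕ → ZMod n → Bool) : TT x ω ≤ ∑' t, nf x t ω := by
  classical
  unfold TT
  by_cases h : ∃ t, IsFixed (traj x ω t)
  · have hf := Nat.find_spec h
    refine (iInf₂_le (Nat.find h) hf).trans ?_
    refine le_trans ?_ (ENNReal.sum_le_tsum (Finset.range (Nat.find h)))
    have : ∑ t ∈ Finset.range (Nat.find h), nf x t ω = ∑ _t ∈ Finset.range (Nat.find h), 1 := by
      apply Finset.sum_congr rfl
      intro t ht
      rw [Finset.mem_range] at ht
      unfold nf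
      rw [if_neg (Nat.find_min h ht)]
    rw [this]
    simp
  · push Not at h
    have : ∀ t, nf x t ω = 1 := fun t => by unfold nf; rw [if_neg (h t)]
    rw [tsum_congr this]
    simp

theorem foster : S_foster := by
  classical
  intro a n hn V hV hd x
  have : NeZero n := ⟨by omega⟩
  have key : ∀ k : ℕ, ∀ x : ZMod n → Bool,
      ∫⁻ ω, ∑ t ∈ Finset.range k, nf x t ω ∂(PP a n) ≤ ENNReal.ofReal (V x) := by
    intro k
    induction k with
    | zero => intro x; simp
    | succ k ih =>
      intro x
      by_cases hx : IsFixed x
      · have : ∀ ω : ℕ → ZMod n → Bool, ∑ t ∈ Finset.range (k + 1), nf x t ω = 0 := by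
          intro ω
          apply Finset.sum_eq_zero
          intro t _
          unfold nf
          rw [traj_fixed hx, if_pos hx]
        simp only [this, lintegral_zero]
        exact zero_le
      · have hm : Measurable fun ω : ℕ → ZMod n → Bool => ∑ t ∈ Finset.range (k + 1), nf x t ω :=
          Finset.measurable_sum _ fun t _ => measurable_nf x t
        rw [lintegral_cons a hm]
        have e1 : ∀ (c : ZMod n → Bool), ∫⁻ ω, ∑ t ∈ Finset.range (k + 1), nf x t (cons c ω)
            ∂(PP a n) ≤ 1 + ENNReal.ofReal (V (step x c)) := by
          intro c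
          have e2 : ∀ ω : ℕ → ZMod n → Bool, ∑ t ∈ Finset.range (k + 1), nf x t (cons c ω) =
              ∑ t ∈ Finset.range k, nf (step x c) t ω + 1 := by
            intro ω
            rw [Finset.sum_range_succ']
            congr 1
            · apply Finset.sum_congr rfl
              intro t _
              unfold nf
              rw [traj_cons]
            · unfold nf
              exact if_neg hx
          simp only [e2]
          rw [lintegral_add_right _ measurable_const, lintegral_const, measure_univ, one_mul,
            add_comm]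
          gcongr
          exact ih (step x c)
        refine (lintegral_mono e1).trans ?_
        rw [lintegral_add_left measurable_const]
        · rw [lintegral_const, measure_univ, one_mul,
            ← ofReal_integral_eq_lintegral_ofReal Integrable.of_finite
              (Filter.Eventually.of_forall fun c => hV _)]
          rw [← ENNReal.ofReal_one, ← ENNReal.ofReal_add zero_le_one
            (integral_nonneg fun c => hV _)]
          exact ENNReal.ofReal_le_ofReal (hd x hx)
  refine (lintegral_mono fun ω => TT_le x ω).trans ?_
  rw [lintegral_tsum fun t => (measurable_nf x t).aemeasurable]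
  apply ENNReal.tsum_le_of_sum_range_le
  intro k
  rw [← lintegral_finsetSum _ fun t _ => measurable_nf x t]
  exact key k x

end

end Pool.Agent.Q294.R210
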