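import Pool.Agent.Q294.R210.Stm

/-!
# Rule 210: the fixed points and the lower bound
-/

set_option autoImplicit false

namespace Pool.Agent.Q294.R210

open MeasureTheory ProbabilityTheory
open scoped ENNReal

theorem fixed : S_fixed := by
  intro n x
  constructor
  · intro h
    have h1 : ∀ i, x i = false → x (i + 1) = false := by
      intro i hi
      by_contra hc
      have hc' : x (i + 1) = true := by simpa using hc
      have := h (i + 1)
      rw [add_sub_cancel_right, hi, hc'] at this
      cases hx : x (i + 1 + 1) <;> rw [hx] at this <;> simp [f210] at this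
    have h2 : ∀ i, x i = true → x (i + 1) = true := by
      intro i hi
      by_contra hc
      have hc' : x (i + 1) = false := by simpa using hc
      have h3 := h1 _ hc'
      have := h (i + 1)
      rw [add_sub_cancel_right, hi, hc', h3] at this
      simp [f210] at this
    have h3 : ∀ i, x (i + 1) = x i := by
      intro i
      cases hx : x i
      · exact h1 i hx
      · exact h2 i hx
    have h4 : ∀ (k : ℕ) i, x (i + k) = x i := by
      intro k
      induction k with
      | zero => intro i; simp
      | succ k ih =>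
        intro i
        have : i + ((k + 1 : ℕ) : ZMod n) = (i + k) + 1 := by push_cast; ring
        rw [this, h3, ih]
    have h5 : ∀ (k : ℤ) i, x (i + k) = x i := by
      intro k i
      rcases Int.eq_nat_or_neg k with ⟨m, rfl | rfl⟩
      · simpa using h4 m i
      · have := h4 m (i + ((-(m : ℤ) : ℤ) : ZMod n))
        rw [← this]
        congr 1
        push_cast
        ring
    have h6 : ∀ i, x i = x 0 := by
      intro i
      have := h5 (ZMod.cast i) 0
      rwa [zero_add, ZMod.intCast_zmod_cast] at this
    cases hx : x 0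
    · left; intro i; rw [h6 i, hx]
    · right; intro i; rw [h6 i, hx]
  · rintro (h | h) i
    · rw [h, h, h]; rfl
    · rw [h, h, h]; rfl

lemma cone {n : ℕ} (x : ZMod n → Bool) (ω : ℕ → ZMod n → Bool) (v : Bool) (c : ZMod n) (k : ℕ)
    (h : ∀ j : ℤ, |j| ≤ k → x (c + j) = v) (t : ℕ) :
    ∀ j : ℤ, |j| + t ≤ k → traj x ω t (c + j) = v := by
  induction t with
  | zero => intro j hj; exact h j (by simpa using hj)
  | succ t ih =>
    intro j hj
    push_cast at hj
    have hv : f210 v v v = v := by cases v <;> rfl
    have e0 := ih j (by linarith)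
    have e1 := ih (j - 1) (by
      have : |j - 1| ≤ |j| + 1 := by
        have := abs_sub j 1
        simpa using this
      linarith)
    have e2 := ih (j + 1) (by
      have : |j + 1| ≤ |j| + 1 := by
        have := abs_add_le j 1
        simpa using this
      linarith)
    have r1 : c + ((j - 1 : ℤ) : ZMod n) = c + j - 1 := by push_cast; ring
    have r2 : c + ((j + 1 : ℤ) : ZMod n) = c + j + 1 := by push_cast; ring
    rw [r1] at e1
    rw [r2] at e2
    show step (traj x ω t) (ω t) (c + j) = v
    unfold step
    rw [e0, e1, e2, hv, ite_self]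

theorem lower : S_lower := by
  intro n hn
  have : NeZero n := ⟨by omega⟩
  obtain ⟨k, hk1, hk2⟩ : ∃ k : ℕ, 4 * k + 2 ≤ n ∧ n ≤ 4 * k + 5 := ⟨(n - 2) / 4, by omega, by omega⟩
  refine ⟨fun i => decide (i.val ≤ 2 * k), fun ω => ?_⟩
  have hcast : ∀ m : ℕ, m < n → ((m : ZMod n)).val = m := fun m hm => ZMod.val_cast_of_lt hm
  have hone : ∀ t ≤ k, traj (fun i : ZMod n => decide (i.val ≤ 2 * k)) ω t (k : ZMod n) = true := by
    intro t ht
    have := cone (fun i : ZMod n => decide (i.val ≤ 2 * k)) ω true (k : ZMod n) k (by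
      intro j hj
      rw [abs_le] at hj
      obtain ⟨m, hm⟩ : ∃ m : ℕ, (m : ℤ) = k + j := ⟨((k : ℤ) + j).toNat, by omega⟩
      have e : (k : ZMod n) + (j : ZMod n) = (m : ZMod n) := by
        have : (((k : ℤ) + j : ℤ) : ZMod n) = ((m : ℤ) : ZMod n) := by rw [hm]
        push_cast at this
        exact this
      show decide (((k : ZMod n) + (j : ZMod n)).val ≤ 2 * k) = true
      rw [e, hcast m (by omega)]
      simp only [decide_eq_true_eq]
      omega) t 0 (by simpa using ht)
    simpa using this
  have hzero : ∀ t ≤ k, traj (fun i : ZMod n => decide (i.val ≤ 2 * k)) ω t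
      ((3 * k + 1 : ℕ) : ZMod n) = false := by
    intro t ht
    have := cone (fun i : ZMod n => decide (i.val ≤ 2 * k)) ω false ((3 * k + 1 : ℕ) : ZMod n) k (by
      intro j hj
      rw [abs_le] at hj
      obtain ⟨m, hm⟩ : ∃ m : ℕ, (m : ℤ) = (3 * k + 1 : ℕ) + j :=
        ⟨(((3 * k + 1 : ℕ) : ℤ) + j).toNat, by omega⟩
      have e : ((3 * k + 1 : ℕ) : ZMod n) + (j : ZMod n) = (m : ZMod n) := by
        have : ((((3 * k + 1 : ℕ) : ℤ) + j : ℤ) : ZMod n) = ((m : ℤ) : ZMod n) := by rw [hm]
        rw [Int.cast_add, Int.cast_natCast, Int.cast_natCast] at this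
        exact this
      show decide ((((3 * k + 1 : ℕ) : ZMod n) + (j : ZMod n)).val ≤ 2 * k) = false
      rw [e, hcast m (by omega)]
      simp only [decide_eq_false_iff_not]
      omega) t 0 (by simpa using ht)
    simpa using this
  unfold TT
  refine le_iInf₂ fun t ht => ?_
  rw [fixed n] at ht
  have hkt : k < t := by
    by_contra hc
    push Not at hc
    rcases ht with h | h
    · exact Bool.false_ne_true ((h _).symm.trans (hone t hc))
    · exact Bool.false_ne_true ((hzero t hc).symm.trans (h _))
  have h1 : ((n : ℝ) - 1) / 4 ≤ (t : ℝ) := by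
    have h2 : (n : ℝ) ≤ 4 * k + 5 := by exact_mod_cast hk2
    have h3 : (k : ℝ) + 1 ≤ t := by exact_mod_cast hkt
    linarith
  calc ENNReal.ofReal (((n : ℝ) - 1) / 4) ≤ ENNReal.ofReal (t : ℝ) := ENNReal.ofReal_le_ofReal h1
    _ = (t : ℝ≥0∞) := ENNReal.ofReal_natCast t

end Pool.Agent.Q294.R210
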