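import Pool.Agent.Q294.R210.Cert

/-!
# Rule 210: assembly
-/

set_option autoImplicit false

namespace Pool.Agent.Q294.R210

open MeasureTheory ProbabilityTheory
open scoped ENNReal

noncomputable section

/-- the Lyapunov function -/
def Phi {n : ℕ} [NeZero n] (u : ℝ) (φ : Bool → Bool → Bool → Bool → ℝ) (x : ZMod n → Bool) : ℝ :=
  u * UU x + ∑ i : ZMod n, φ (x i) (x (i + 1)) (x (i + 2)) (x (i + 3))

lemma integrable_all {n : ℕ} [NeZero n] (a : ℝ) (F : (ZMod n → Bool) → ℝ) :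
    Integrable F (mu a n) := Integrable.of_finite

lemma exists_zero_one {n : ℕ} [NeZero n] (hF : S_fixed) (x : ZMod n → Bool) (hx : ¬ IsFixed x) :
    ∃ i, x (i - 1) = false ∧ x i = true := by
  rw [hF n x, not_or] at hx
  obtain ⟨h0, h1⟩ := hx
  by_contra hcon
  have hcon' : ∀ i, x (i - 1) = false → x i = false := by
    intro i hi
    by_contra h
    exact hcon ⟨i, hi, by simpa using h⟩
  apply h0
  obtain ⟨j, hj⟩ : ∃ j, x j = false := by
    by_contra h
    exact h1 fun i => by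
      by_contra h'
      exact h ⟨i, by simpa using h'⟩
  have key : ∀ k : ℕ, x (j + k) = false := by
    intro k
    induction k with
    | zero => simpa using hj
    | succ k ih =>
      apply hcon'
      have : j + ((k + 1 : ℕ) : ZMod n) - 1 = j + k := by push_cast; ring
      rw [this]
      exact ih
  intro i
  have := key (i - j).val
  rwa [ZMod.natCast_zmod_val, add_sub_cancel] at this

lemma sum_shift {n : ℕ} [NeZero n] (F : ZMod n → ℝ) : ∑ i, F (i - 1) = ∑ i, F i :=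
  Equiv.sum_comp (Equiv.subRight (1 : ZMod n)) F

theorem drift (hS : S_four) (hA : S_alt) (hF : S_fixed) {a : ℝ} (h0 : 0 < a) (h1 : a < 1)
    {n : ℕ} [NeZero n] (hn : 4 ≤ n) {u t : ℝ} (hu : 0 ≤ u) (ht : 0 ≤ t)
    (φ : Bool → Bool → Bool → Bool → ℝ) (ψ : Bool → Bool → Bool → Bool → Bool → ℝ)
    (hc : ∀ e0 e1 e2 e3 e4 e5 : Bool, E4 a φ e0 e1 e2 e3 e4 e5 - φ e1 e2 e3 e4 +
      u * WW a e0 e1 e2 e3 e4 + (if e0 = false ∧ e1 = true then t else 0) ≤
      ψ e1 e2 e3 e4 e5 - ψ e0 e1 e2 e3 e4) (x : ZMod n → Bool) (hx : ¬ IsFixed x) :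
    ∫ c, Phi u φ (step x c) ∂(mu a n) ≤ Phi u φ x - t := by
  have e1 : ∫ c, Phi u φ (step x c) ∂(mu a n) = u * ∫ c, UU (step x c) ∂(mu a n) +
      ∑ i : ZMod n, E4 a φ (x (i - 1)) (x i) (x (i + 1)) (x (i + 2)) (x (i + 3)) (x (i + 4)) := by
    unfold Phi
    rw [integral_add (integrable_all a _) (integrable_all a _), integral_const_mul,
      integral_finsetSum _ fun i _ => integrable_all a _]
    congr 1
    apply Finset.sum_congr rfl
    intro i _
    exact hS a h0 h1 n hn x φ i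
  obtain ⟨i0, hi0, hi1⟩ := exists_zero_one hF x hx
  have e2 := hA a h0 h1 n hn inferInstance x ⟨i0, hi1⟩
  have e3 : ∑ i : ZMod n, (E4 a φ (x (i - 1)) (x i) (x (i + 1)) (x (i + 2)) (x (i + 3)) (x (i + 4)) -
      φ (x i) (x (i + 1)) (x (i + 2)) (x (i + 3)) +
      u * WW a (x (i - 1)) (x i) (x (i + 1)) (x (i + 2)) (x (i + 3)) +
      (if x (i - 1) = false ∧ x i = true then t else 0)) ≤
      ∑ i : ZMod n, (ψ (x i) (x (i + 1)) (x (i + 2)) (x (i + 3)) (x (i + 4)) -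
        ψ (x (i - 1)) (x i) (x (i + 1)) (x (i + 2)) (x (i + 3))) :=
    Finset.sum_le_sum fun i _ => hc _ _ _ _ _ _
  have e4 : ∑ i : ZMod n, (ψ (x i) (x (i + 1)) (x (i + 2)) (x (i + 3)) (x (i + 4)) -
        ψ (x (i - 1)) (x i) (x (i + 1)) (x (i + 2)) (x (i + 3))) = 0 := by
    rw [Finset.sum_sub_distrib, sub_eq_zero, eq_comm]
    have := sum_shift fun i : ZMod n => ψ (x i) (x (i + 1)) (x (i + 2)) (x (i + 3)) (x (i + 4))
    rw [← this]
    apply Finset.sum_congr rfl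
    intro i _
    have r1 : i - 1 + 1 = i := by ring
    have r2 : i - 1 + 2 = i + 1 := by ring
    have r3 : i - 1 + 3 = i + 2 := by ring
    have r4 : i - 1 + 4 = i + 3 := by ring
    rw [r1, r2, r3, r4]
  have e5 : t ≤ ∑ i : ZMod n, (if x (i - 1) = false ∧ x i = true then t else 0) := by
    refine le_trans (by simp [hi0, hi1]) (Finset.single_le_sum (f := fun i : ZMod n =>
      if x (i - 1) = false ∧ x i = true then t else 0) (fun i _ => ?_) (Finset.mem_univ i0))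
    split_ifs
    · exact ht
    · exact le_rfl
  rw [e4, Finset.sum_add_distrib, Finset.sum_add_distrib, Finset.sum_sub_distrib,
    ← Finset.mul_sum] at e3
  rw [e1]
  have e6 := mul_le_mul_of_nonneg_left e2 hu
  unfold Phi
  rw [mul_add] at e6
  linarith

lemma UU_nonneg {n : ℕ} (x : ZMod n → Bool) : 0 ≤ UU x := by
  unfold UU
  exact tsum_nonneg fun i => by split_ifs <;> norm_num

lemma UU_le {n : ℕ} [NeZero n] (x : ZMod n → Bool) : UU x ≤ n := by
  classical
  unfold UU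
  rw [tsum_fintype]
  calc _ ≤ ∑ _i : ZMod n, (1 : ℝ) := Finset.sum_le_sum fun i _ => by split_ifs <;> norm_num
    _ = n := by simp [ZMod.card]

theorem time_bound (hS : S_four) (hA : S_alt) (hF : S_fixed) (hL : S_foster) {a : ℝ} (h0 : 0 < a)
    (h1 : a < 1) {n : ℕ} [NeZero n] (hn : 4 ≤ n) {u t B : ℝ} (hu : 0 ≤ u) (ht : 0 < t)
    (φ : Bool → Bool → Bool → Bool → ℝ) (ψ : Bool → Bool → Bool → Bool → Bool → ℝ)
    (hb : ∀ b0 b1 b2 b3, |φ b0 b1 b2 b3| ≤ B)
    (hc : ∀ e0 e1 e2 e3 e4 e5 : Bool, E4 a φ e0 e1 e2 e3 e4 e5 - φ e1 e2 e3 e4 +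
      u * WW a e0 e1 e2 e3 e4 + (if e0 = false ∧ e1 = true then t else 0) ≤
      ψ e1 e2 e3 e4 e5 - ψ e0 e1 e2 e3 e4) (x : ZMod n → Bool) :
    ∫⁻ ω, TT x ω ∂(PP a n) ≤ ENNReal.ofReal ((u + 2 * B) * n / t) := by
  have s1 : ∀ y : ZMod n → Bool, |∑ i : ZMod n, φ (y i) (y (i + 1)) (y (i + 2)) (y (i + 3))| ≤
      B * n := by
    intro y
    refine (Finset.abs_sum_le_sum_abs _ _).trans ?_
    refine (Finset.sum_le_sum fun i _ => hb _ _ _ _).trans ?_
    simp [ZMod.card, mul_comm]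
  set V : (ZMod n → Bool) → ℝ := fun y => (Phi u φ y + B * n) / t with hV
  have hV0 : ∀ y, 0 ≤ V y := by
    intro y
    apply div_nonneg _ ht.le
    have := abs_le.1 (s1 y)
    have := mul_nonneg hu (UU_nonneg y)
    unfold Phi
    linarith [this, (abs_le.1 (s1 y)).1]
  refine (hL a n (by omega) V hV0 ?_ x).trans (ENNReal.ofReal_le_ofReal ?_)
  · intro y hy
    have hd := drift hS hA hF h0 h1 hn hu ht.le φ ψ hc y hy
    have : ∫ c, V (step y c) ∂(mu a n) = (∫ c, Phi u φ (step y c) ∂(mu a n) + B * n) / t := by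
      rw [hV]
      simp only [div_eq_mul_inv]
      rw [integral_mul_const, integral_add (integrable_all a _) (integrable_all a _)]
      simp
    rw [this, hV]
    have h2 : (∫ c, Phi u φ (step y c) ∂(mu a n) + B * n) / t ≤ (Phi u φ y - t + B * n) / t := by
      gcongr
    have h3 : (Phi u φ y - t + B * n) / t = (Phi u φ y + B * n) / t - 1 := by
      field_simp
      ring
    show 1 + _ ≤ (Phi u φ y + B * n) / t
    linarith
  · rw [hV]
    show (Phi u φ x + B * n) / t ≤ _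
    gcongr
    unfold Phi
    have := (abs_le.1 (s1 x)).2
    have := mul_le_mul_of_nonneg_left (UU_le x) hu
    linarith

lemma phiS_le {a : ℝ} (h0 : 0 < a) (h : a ≤ 1 / 2) (b0 b1 b2 b3 : Bool) :
    |phiS a b0 b1 b2 b3| ≤ 3000 := by
  cases b0 <;> cases b1 <;> cases b2 <;> cases b3 <;> simp only [phiS] <;> rw [abs_le] <;>
    constructor <;> linarith

lemma phiL_le {e : ℝ} (h0 : 0 < e) (h : e ≤ 1 / 2) (b0 b1 b2 b3 : Bool) :
    |phiL e b0 b1 b2 b3| ≤ 3000 := by
  have h2 : 0 ≤ e ^ 2 := by positivity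
  have h2' : e ^ 2 ≤ 1 := by nlinarith
  have h3 : 0 ≤ e ^ 3 := by positivity
  have h3' : e ^ 3 ≤ 1 := by nlinarith
  cases b0 <;> cases b1 <;> cases b2 <;> cases b3 <;> simp only [phiL] <;> rw [abs_le] <;>
    constructor <;> linarith

theorem upper (hS : S_four) (hA : S_alt) (hF : S_fixed) (hL : S_foster) {a : ℝ} (h0 : 0 < a)
    (h1 : a < 1) {n : ℕ} (hn : 4 ≤ n) (x : ZMod n → Bool) :
    ∫⁻ ω, TT x ω ∂(PP a n) ≤ ENNReal.ofReal (7000 * n / (a ^ 2 * (1 - a) ^ 3)) := by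
  have : NeZero n := ⟨by omega⟩
  have ha2 : 0 < a ^ 2 := by positivity
  have he : 0 < 1 - a := by linarith
  have he3 : 0 < (1 - a) ^ 3 := by positivity
  rcases le_total a (1 / 2) with h | h
  · refine (time_bound hS hA hF hL h0 h1 hn (u := 0) (t := a ^ 2) (B := 3000) le_rfl ha2
      (phiS a) (psiS a) (phiS_le h0 h) ?_ x).trans (ENNReal.ofReal_le_ofReal ?_)
    · intro e0 e1 e2 e3 e4 e5
      have := certS a h0 h e0 e1 e2 e3 e4 e5
      linarith
    · have h3 : (1 - a) ^ 3 ≤ 1 := pow_le_one₀ he.le (by linarith)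
      rw [div_le_div_iff₀ ha2 (by positivity)]
      have : a ^ 2 * (1 - a) ^ 3 ≤ a ^ 2 := by nlinarith
      have hn0 : (0 : ℝ) ≤ n := Nat.cast_nonneg n
      nlinarith [mul_le_mul_of_nonneg_left this hn0, mul_nonneg hn0 ha2.le]
  · have hu : 0 ≤ uw (1 - a) := by unfold uw; linarith
    have hu' : uw (1 - a) ≤ 1000 := by unfold uw; linarith
    refine (time_bound hS hA hF hL h0 h1 hn (u := uw (1 - a)) (t := (1 - a) ^ 3) (B := 3000) hu he3
      (phiL (1 - a)) (psiL (1 - a)) (phiL_le he (by linarith)) ?_ x).trans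
      (ENNReal.ofReal_le_ofReal ?_)
    · intro e0 e1 e2 e3 e4 e5
      exact certL a h h1 e0 e1 e2 e3 e4 e5
    · have h3 : a ^ 2 ≤ 1 := pow_le_one₀ h0.le h1.le
      rw [div_le_div_iff₀ he3 (by positivity)]
      have : a ^ 2 * (1 - a) ^ 3 ≤ (1 - a) ^ 3 := by nlinarith
      have hn0 : (0 : ℝ) ≤ n := Nat.cast_nonneg n
      have h5 := mul_le_mul_of_nonneg_left this hn0
      have h6 : (uw (1 - a) + 2 * 3000) * n ≤ 7000 * n := by nlinarith
      calc (uw (1 - a) + 2 * 3000) * n * (a ^ 2 * (1 - a) ^ 3)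
          ≤ 7000 * n * (a ^ 2 * (1 - a) ^ 3) := by
            apply mul_le_mul_of_nonneg_right h6 (by positivity)
        _ ≤ 7000 * n * (1 - a) ^ 3 := by nlinarith

theorem main (hS : S_four) (hA : S_alt) (hF : S_fixed) (hL : S_foster) (h3 : S_three)
    (hlow : S_lower) :
    ∃ K : ℝ, 0 < K ∧ ∀ a : ℝ, 0 < a → a < 1 → ∀ n : ℕ, 3 ≤ n →
      ENNReal.ofReal (((n : ℝ) - 1) / 4) ≤ RR a n ∧
      RR a n ≤ ENNReal.ofReal (K * n / (a ^ 2 * (1 - a) ^ 3)) := by
  obtain ⟨K, hK, h3⟩ := h3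
  refine ⟨7000 + K, by positivity, fun a h0 h1 n hn => ⟨?_, ?_⟩⟩
  · obtain ⟨x, hx⟩ := hlow n hn
    refine le_trans ?_ (le_iSup (fun x : ZMod n → Bool => ∫⁻ ω, TT x ω ∂(PP a n)) x)
    calc ENNReal.ofReal (((n : ℝ) - 1) / 4)
        = ∫⁻ _ω, ENNReal.ofReal (((n : ℝ) - 1) / 4) ∂(PP a n) := by
          rw [lintegral_const, measure_univ, mul_one]
      _ ≤ _ := lintegral_mono fun ω => hx ω
  · have hp : 0 < a ^ 2 * (1 - a) ^ 3 := by
      have : 0 < 1 - a := by linarith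
      positivity
    apply iSup_le
    intro x
    rcases eq_or_lt_of_le hn with h | h
    · subst h
      refine (h3 a h0 h1 x).trans (ENNReal.ofReal_le_ofReal ?_)
      gcongr
      push_cast
      nlinarith
    · refine (upper hS hA hF hL h0 h1 h x).trans (ENNReal.ofReal_le_ofReal ?_)
      gcongr
      linarith

end

end Pool.Agent.Q294.R210
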