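import Mathlib

/-!
# The alpha-asynchronous elementary rule 210: definitions and the statements of the lemma jobs

`0` is `false`, `1` is `true`; the ring is `ZMod n`.
-/

set_option autoImplicit false

namespace Pool.Agent.Q294.R210

open MeasureTheory ProbabilityTheory
open scoped ENNReal

noncomputable section

/-- the local map of Wolfram's elementary rule 210 -/
def f210 : Bool → Bool → Bool → Bool
  | true, true, true => true
  | true, true, false => true
  | true, false, true => false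
  | true, false, false => true
  | false, true, true => false
  | false, true, false => false
  | false, false, true => true
  | false, false, false => false

/-- one step: the cells with coin `true` are updated simultaneously -/
def step {n : ℕ} (x c : ZMod n → Bool) : ZMod n → Bool :=
  fun i => if c i then f210 (x (i - 1)) (x i) (x (i + 1)) else x i

/-- the configuration at time `t`, started from `x`, with the coins `ω` -/
def traj {n : ℕ} (x : ZMod n → Bool) (ω : ℕ → ZMod n → Bool) : ℕ → ZMod n → Bool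
  | 0 => x
  | t + 1 => step (traj x ω t) (ω t)

/-- a fixed point: no update changes it -/
def IsFixed {n : ℕ} (x : ZMod n → Bool) : Prop :=
  ∀ i, f210 (x (i - 1)) (x i) (x (i + 1)) = x i

/-- a coin with success probability `a` (for `0 ≤ a ≤ 1`) -/
def bern (a : ℝ) : Measure Bool :=
  ENNReal.ofReal (max 0 (min a 1)) • Measure.dirac true +
    ENNReal.ofReal (1 - max 0 (min a 1)) • Measure.dirac false

instance (a : ℝ) : IsProbabilityMeasure (bern a) := by
  constructor
  have h0 : 0 ≤ max 0 (min a 1) := le_max_left _ _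
  have h1 : max 0 (min a 1) ≤ 1 := max_le zero_le_one (min_le_right _ _)
  unfold bern
  rw [Measure.add_apply, Measure.smul_apply, Measure.smul_apply, measure_univ, measure_univ,
    smul_eq_mul, smul_eq_mul, mul_one, mul_one, ← ENNReal.ofReal_add h0
    (sub_nonneg.2 h1), add_sub_cancel, ENNReal.ofReal_one]

/-- the coins of one time step: independent for the cells -/
def mu (a : ℝ) (n : ℕ) : Measure (ZMod n → Bool) := Measure.infinitePi fun _ => bern a

instance (a : ℝ) (n : ℕ) : IsProbabilityMeasure (mu a n) := by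
  unfold mu
  infer_instance

/-- the coins of all time steps: independent -/
def PP (a : ℝ) (n : ℕ) : Measure (ℕ → ZMod n → Bool) := Measure.infinitePi fun _ => mu a n

instance (a : ℝ) (n : ℕ) : IsProbabilityMeasure (PP a n) := by
  unfold PP
  infer_instance

/-- the first time at which the configuration is a fixed point (`∞` if there is none) -/
def TT {n : ℕ} (x : ZMod n → Bool) (ω : ℕ → ZMod n → Bool) : ℝ≥0∞ :=
  ⨅ (t : ℕ) (_ : IsFixed (traj x ω t)), (t : ℝ≥0∞)

/-- the relaxation time `R_α(n) = max_x E T(x)` -/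
def RR (a : ℝ) (n : ℕ) : ℝ≥0∞ := ⨆ x : ZMod n → Bool, ∫⁻ ω, TT x ω ∂(PP a n)

/-! ### JOB J1: one step, four cells -/

/-- the probability that a cell with state `c`, left neighbour `l`, right neighbour `r` is in the
state `b` after one step -/
def q (a : ℝ) (l c r b : Bool) : ℝ :=
  a * (if f210 l c r = b then 1 else 0) + (1 - a) * (if c = b then 1 else 0)

/-- the expectation of a function of the new states of the four inner cells of a window of six -/
def E4 (a : ℝ) (g : Bool → Bool → Bool → Bool → ℝ) (e0 e1 e2 e3 e4 e5 : Bool) : ℝ :=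
  ∑ b0 : Bool, ∑ b1 : Bool, ∑ b2 : Bool, ∑ b3 : Bool,
    q a e0 e1 e2 b0 * q a e1 e2 e3 b1 * q a e2 e3 e4 b2 * q a e3 e4 e5 b3 * g b0 b1 b2 b3

/-- J1 -/
def S_four : Prop := ∀ (a : ℝ), 0 < a → a < 1 → ∀ n : ℕ, 4 ≤ n → ∀ (x : ZMod n → Bool)
  (g : Bool → Bool → Bool → Bool → ℝ) (i : ZMod n),
  ∫ c, g (step x c i) (step x c (i + 1)) (step x c (i + 2)) (step x c (i + 3)) ∂(mu a n) =
    E4 a g (x (i - 1)) (x i) (x (i + 1)) (x (i + 2)) (x (i + 3)) (x (i + 4))

/-! ### JOB J2: the Lyapunov criterion on the path space -/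

/-- J2 -/
def S_foster : Prop := ∀ (a : ℝ) (n : ℕ), 3 ≤ n → ∀ V : (ZMod n → Bool) → ℝ, (∀ x, 0 ≤ V x) →
  (∀ x, ¬ IsFixed x → 1 + ∫ c, V (step x c) ∂(mu a n) ≤ V x) →
  ∀ x, ∫⁻ ω, TT x ω ∂(PP a n) ≤ ENNReal.ofReal (V x)

/-! ### JOB J3: the alternating count -/

/-- the number of zeros between the cell `i` and the next one to its right is even -/
def oo {n : ℕ} (x : ZMod n → Bool) (i : ZMod n) : Prop :=
  ∃ k : ℕ, Even k ∧ x (i + 1 + k) = true ∧ ∀ j < k, x (i + 1 + j) = false

open Classical in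
/-- the alternating count: `∑ ⌈ℓ/2⌉` over the runs of zeros -/
def UU {n : ℕ} (x : ZMod n → Bool) : ℝ := ∑' i : ZMod n, if x i = false ∧ oo x i then (1 : ℝ) else 0

/-- the bound of the drift of the alternating count -/
def WW (a : ℝ) (e0 e1 e2 e3 e4 : Bool) : ℝ :=
  (if e0 = false ∧ e1 = true then -(1 - a) else 0) +
  (if e0 = true ∧ e1 = false then 1 - a else 0) +
  (if e0 = false ∧ e1 = false ∧ e2 = true then (1 - a) ^ 2 else 0) +
  (if e0 = true ∧ e1 = false ∧ e2 = false ∧ e3 = false ∧ e4 = true then -(1 - a) else 0)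

/-- J3 -/
def S_alt : Prop := ∀ (a : ℝ), 0 < a → a < 1 → ∀ n : ℕ, 4 ≤ n → ∀ (_ : NeZero n)
  (x : ZMod n → Bool), (∃ i, x i = true) →
  ∫ c, UU (step x c) ∂(mu a n) ≤ UU x +
    ∑ i : ZMod n, WW a (x (i - 1)) (x i) (x (i + 1)) (x (i + 2)) (x (i + 3))

/-! ### JOB J4: three cells -/

/-- J4 -/
def S_three : Prop := ∃ K : ℝ, 0 < K ∧ ∀ (a : ℝ), 0 < a → a < 1 → ∀ x : ZMod 3 → Bool,
  ∫⁻ ω, TT x ω ∂(PP a 3) ≤ ENNReal.ofReal (K / (a ^ 2 * (1 - a) ^ 3))

/-! ### JOB J5: the lower bound -/

/-- J5 -/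
def S_lower : Prop := ∀ (n : ℕ), 3 ≤ n → ∃ x : ZMod n → Bool, ∀ ω : ℕ → ZMod n → Bool,
  ENNReal.ofReal (((n : ℝ) - 1) / 4) ≤ TT x ω

/-- J5, second part: the fixed points -/
def S_fixed : Prop := ∀ (n : ℕ) (x : ZMod n → Bool),
  IsFixed x ↔ (∀ i, x i = false) ∨ (∀ i, x i = true)

end

end Pool.Agent.Q294.R210
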