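import Pool.Agent.Q294.R210.Stm

/-!
# Rule 210: the potentials and the correctors
-/

set_option autoImplicit false

namespace Pool.Agent.Q294.R210

noncomputable section

/-- the local potential (windows of four cells), regime S. -/
def phiS (a : ℝ) : Bool → Bool → Bool → Bool → ℝ
  | false, false, false, false => 157*a
  | false, false, false, true => 157*a
  | false, false, true, false => 157*a
  | false, false, true, true => 157*a
  | false, true, false, false => 188 - 37*a
  | false, true, false, true => 156 - 84*a
  | false, true, true, false => 267 - 92*a
  | false, true, true, true => 300 - 101*a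
  | true, false, false, false => 0
  | true, false, false, true => -19*a
  | true, false, true, false => -35 + 192*a
  | true, false, true, true => 139*a
  | true, true, false, false => 0
  | true, true, false, true => 0
  | true, true, true, false => 0
  | true, true, true, true => 0

/-- the corrector (windows of five cells), regime S. -/
def psiS (a : ℝ) : Bool → Bool → Bool → Bool → Bool → ℝ
  | false, false, false, false, false => 0
  | false, false, false, false, true => 20*a^3
  | false, false, false, true, false => 13*a^2 + 22*a^3
  | false, false, false, true, true => 41*a^3
  | false, false, true, false, false => 277*a - 312*a^2 + 35*a^3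
  | false, false, true, false, true => 267*a - 295*a^2 + 49*a^3
  | false, false, true, true, false => 306*a - 400*a^2 + 44*a^3
  | false, false, true, true, true => 300*a - 402*a^2 + 58*a^3
  | false, true, false, false, false => -10*a - 149*a^2 + 113*a^3
  | false, true, false, false, true => -24*a - 111*a^2 + 103*a^3
  | false, true, false, true, false => -13*a + 174*a^2 - 236*a^3
  | false, true, false, true, true => -5*a + 141*a^2 - 213*a^3
  | false, true, true, false, false => -195*a + 129*a^2 - 18*a^3
  | false, true, true, false, true => -188*a + 144*a^2 + 14*a^3
  | false, true, true, true, false => -282*a + 232*a^2 - 50*a^3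
  | false, true, true, true, true => -300*a + 257*a^2 - 61*a^3
  | true, false, false, false, false => 157*a^2 - 20*a^3
  | true, false, false, false, true => 158*a^2 - 82*a^3
  | true, false, false, true, false => 17*a + 257*a^2 - 70*a^3
  | true, false, false, true, true => 318*a^2 - 142*a^3
  | true, false, true, false, false => 93*a - 194*a^2 + 48*a^3
  | true, false, true, false, true => 83*a - 92*a^2 - 99*a^3
  | true, false, true, true, false => 21*a - 41*a^2 - 46*a^3
  | true, false, true, true, true => -1*a^2 - 61*a^3
  | true, true, false, false, false => 157*a^2 - 61*a^3
  | true, true, false, false, true => 157*a^2 - 44*a^3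
  | true, true, false, true, false => 11*a + 122*a^2 - 24*a^3
  | true, true, false, true, true => 157*a^2 - 61*a^3
  | true, true, true, false, false => 157*a^2 - 61*a^3
  | true, true, true, false, true => 157*a^2 - 61*a^3
  | true, true, true, true, false => 157*a^2 - 61*a^3
  | true, true, true, true, true => 157*a^2 - 61*a^3

/-- the local potential (windows of four cells), regime L. -/
def phiL (e : ℝ) : Bool → Bool → Bool → Bool → ℝ
  | false, false, false, false => 552*e - 109*e^2 + 176*e^3
  | false, false, false, true => 552*e - 109*e^2 + 176*e^3
  | false, false, true, false => 552*e - 109*e^2 + 176*e^3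
  | false, false, true, true => 552*e - 109*e^2 + 176*e^3
  | false, true, false, false => 1104*e - 498*e^2 + 274*e^3
  | false, true, false, true => 552*e - 142*e^2 + 457*e^3
  | false, true, true, false => 1104*e + 308*e^2 + 16*e^3
  | false, true, true, true => 1104*e + 702*e^2 + 412*e^3
  | true, false, false, false => 0
  | true, false, false, true => -225*e^3
  | true, false, true, false => 552*e - 30*e^2 - 275*e^3
  | true, false, true, true => 552*e - 109*e^2 + 52*e^3
  | true, true, false, false => 0
  | true, true, false, true => 0
  | true, true, true, false => 0
  | true, true, true, true => 0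

/-- the corrector (windows of five cells), regime L. -/
def psiL (e : ℝ) : Bool → Bool → Bool → Bool → Bool → ℝ
  | false, false, false, false, false => 0
  | false, false, false, false, true => 34*e^3 + 290*e^4
  | false, false, false, true, false => 46*e^2 - 140*e^3 + 656*e^4
  | false, false, false, true, true => 100*e^3 + 323*e^4
  | false, false, true, false, false => 1200*e^2 - 1056*e^3 + 59*e^4
  | false, false, true, false, true => 552*e - 841*e^2 + 904*e^3 - 81*e^4
  | false, false, true, true, false => 531*e^2 + 863*e^3 - 1172*e^4
  | false, false, true, true, true => 519*e^2 + 779*e^3 - 864*e^4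
  | false, true, false, false, false => -552*e + 1200*e^2 - 389*e^3 - 433*e^4
  | false, true, false, false, true => -552*e + 1121*e^2 - 44*e^3 - 860*e^4
  | false, true, false, true, false => 507*e^2 - 618*e^3 - 174*e^4
  | false, true, false, true, true => 490*e^2 - 686*e^3 + 25*e^4
  | false, true, true, false, false => -552*e + 135*e^2 + 1127*e^3 - 868*e^4
  | false, true, true, false, true => -552*e + 702*e^2 - 115*e^3 - 152*e^4
  | false, true, true, true, false => -552*e - 292*e^2 + 824*e^3 - 112*e^4
  | false, true, true, true, true => -552*e - 292*e^2 + 544*e^3 + 70*e^4
  | true, false, false, false, false => 427*e^2 + 197*e^3 - 29*e^4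
  | true, false, false, false, true => 473*e^2 - 61*e^3 - 30*e^4
  | true, false, false, true, false => 1105*e^2 - 501*e^3 - 151*e^4
  | true, false, false, true, true => 946*e^2 - 102*e^3 - 337*e^4
  | true, false, true, false, false => -552*e + 1109*e^2 + 126*e^3 - 345*e^4
  | true, false, true, false, true => -552*e + 986*e^2 + 565*e^3 - 625*e^4
  | true, false, true, true, false => -552*e + 1088*e^2 - 124*e^3 - 5*e^4
  | true, false, true, true, true => -552*e + 1055*e^2 - 31*e^3 - 182*e^4
  | true, true, false, false, false => 427*e^2 + 143*e^3 - 158*e^4
  | true, true, false, false, true => 394*e^2 + 255*e^3 - 232*e^4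
  | true, true, false, true, false => 397*e^2 + 329*e^3 - 437*e^4
  | true, true, false, true, true => 394*e^2 + 319*e^3 - 403*e^4
  | true, true, true, false, false => 394*e^2 + 255*e^3 - 270*e^4
  | true, true, true, false, true => 394*e^2 + 287*e^3 - 355*e^4
  | true, true, true, true, false => 394*e^2 + 255*e^3 - 307*e^4
  | true, true, true, true, true => 394*e^2 + 255*e^3 - 325*e^4

/-- the weight of the alternating count. -/
def uw (e : ℝ) : ℝ := 552 - 1088*e

end

end Pool.Agent.Q294.R210
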