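import Pool.Agent.Q294.R210.Stm
import Pool.Agent.Q225.R210.Four

/-!
# Rule 210: the ring with three cells
-/

set_option autoImplicit false

namespace Pool.Agent.Q294.R210

open MeasureTheory ProbabilityTheory
open scoped ENNReal

noncomputable section

/-- the weights of a coin -/
def wt (a : ℝ) (b : Bool) : ℝ := if b then a else 1 - a

lemma int3 {a : ℝ} (h0 : 0 < a) (h1 : a < 1) (g : Bool → Bool → Bool → ℝ) :
    ∫ c : Fin 3 → Bool, g (c 0) (c 1) (c 2) ∂(Measure.infinitePi fun _ : Fin 3 => bern a) =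
      ∑ b0 : Bool, ∑ b1 : Bool, ∑ b2 : Bool, wt a b0 * wt a b1 * wt a b2 * g b0 b1 b2 := by
  have e1 : (fun c : Fin 3 → Bool => g (c 0) (c 1) (c 2)) = fun c => ∑ b0 : Bool, ∑ b1 : Bool,
      ∑ b2 : Bool, g b0 b1 b2 * ∏ k : Fin 3, (if c k = ![b0, b1, b2] k then (1 : ℝ) else 0) := by
    funext c
    simp only [Fin.prod_univ_three, Fintype.sum_bool, Matrix.cons_val_zero, Matrix.cons_val_one,
      Matrix.cons_val]
    cases c 0 <;> cases c 1 <;> cases c 2 <;> simp
  rw [e1, Measure.infinitePi_eq_pi]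
  rw [integral_finsetSum _ fun i _ => Integrable.of_finite]
  apply Finset.sum_congr rfl
  intro b0 _
  rw [integral_finsetSum _ fun i _ => Integrable.of_finite]
  apply Finset.sum_congr rfl
  intro b1 _
  rw [integral_finsetSum _ fun i _ => Integrable.of_finite]
  apply Finset.sum_congr rfl
  intro b2 _
  rw [integral_const_mul, integral_fintype_prod_eq_prod
    (fun (k : Fin 3) (y : Bool) => if y = ![b0, b1, b2] k then (1 : ℝ) else 0)]
  simp only [Fin.prod_univ_three, Pool.Agent.Q225.R210.int_bern a h0 h1]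
  unfold wt
  cases b0 <;> cases b1 <;> cases b2 <;> simp <;> ring

/-- the Lyapunov function on three cells -/
def vv (A B : ℝ) : Bool → Bool → Bool → ℝ
  | true, false, false => A
  | false, true, false => A
  | false, false, true => A
  | true, true, false => B
  | true, false, true => B
  | false, true, true => B
  | true, true, true => 0
  | false, false, false => 0

theorem three (hL : S_foster) : S_three := by
  refine ⟨5, by norm_num, fun a h0 h1 x => ?_⟩
  have he : 0 < 1 - a := by linarith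
  have hA : 0 < 4 / (a * (1 - a)) := by positivity
  have hB : 0 < 4 / (a * (1 - a)) + 1 / a := by positivity
  obtain ⟨A, hAe⟩ : ∃ A, A = 4 / (a * (1 - a)) := ⟨_, rfl⟩
  obtain ⟨B, hBe⟩ : ∃ B, B = 4 / (a * (1 - a)) + 1 / a := ⟨_, rfl⟩
  rw [← hAe] at hA
  rw [← hBe] at hB
  have hA1 : a * (1 - a) * A = 4 := by rw [hAe]; field_simp
  have hB1 : a * B = a * A + 1 := by rw [hBe, hAe]; field_simp
  have hV := hL a 3 le_rfl (fun y : ZMod 3 → Bool => vv A B (y 0) (y 1) (y 2)) (by
    intro y
    show 0 ≤ vv A B (y 0) (y 1) (y 2)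
    cases y 0 <;> cases y 1 <;> cases y 2 <;> simp only [vv] <;>
      first
      | exact le_rfl
      | exact hA.le
      | exact hB.le) ?_ x
  · refine hV.trans (ENNReal.ofReal_le_ofReal ?_)
    have hAB : A ≤ B := by nlinarith
    have h2 : vv A B (x 0) (x 1) (x 2) ≤ B := by
      cases x 0 <;> cases x 1 <;> cases x 2 <;> simp only [vv] <;>
        first
        | exact le_rfl
        | exact hAB
        | exact hB.le
    refine h2.trans ?_
    rw [le_div_iff₀ (by positivity), hBe]
    have e1 : (4 / (a * (1 - a)) + 1 / a) * (a ^ 2 * (1 - a) ^ 3) =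
        (a * (1 - a) ^ 2) * (4 + (1 - a)) := by
      field_simp
    rw [e1]
    have h3 : (1 - a) ^ 2 ≤ 1 := pow_le_one₀ he.le (by linarith)
    have h4 : a * (1 - a) ^ 2 ≤ 1 := by nlinarith [sq_nonneg (1 - a)]
    have h5 : 0 ≤ a * (1 - a) ^ 2 := by positivity
    nlinarith
  · intro y hy
    have hy' : ¬ ((y 0 = y 1) ∧ (y 1 = y 2)) := by
      rintro ⟨h01, h12⟩
      apply hy
      have hall : ∀ i : ZMod 3, y i = y 0 := by
        intro i
        fin_cases i
        · rfl
        · exact h01.symm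
        · exact (h01.trans h12).symm
      intro i
      rw [hall (i - 1), hall (i + 1), hall i]
      cases y 0 <;> rfl
    have e1 : ∫ c, vv A B (step y c 0) (step y c 1) (step y c 2) ∂(mu a 3) =
        ∑ b0 : Bool, ∑ b1 : Bool, ∑ b2 : Bool, wt a b0 * wt a b1 * wt a b2 *
          vv A B (if b0 then f210 (y 2) (y 0) (y 1) else y 0)
            (if b1 then f210 (y 0) (y 1) (y 2) else y 1)
            (if b2 then f210 (y 1) (y 2) (y 0) else y 2) :=
      int3 h0 h1 fun b0 b1 b2 => vv A B (if b0 then f210 (y 2) (y 0) (y 1) else y 0)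
            (if b1 then f210 (y 0) (y 1) (y 2) else y 1)
            (if b2 then f210 (y 1) (y 2) (y 0) else y 2)
    show 1 + ∫ c, vv A B (step y c 0) (step y c 1) (step y c 2) ∂(mu a 3) ≤
      vv A B (y 0) (y 1) (y 2)
    rw [e1]
    have k1 : 0 ≤ a * (1 - a) := by positivity
    have k2 : (1 - a) ^ 2 ≤ 1 := pow_le_one₀ he.le (by linarith)
    have k3 : a ^ 2 ≤ 1 := pow_le_one₀ h0.le h1.le
    have m1 : (a * (1 - a) ^ 2) * B = (1 - a) ^ 2 * (a * A + 1) := by rw [← hB1]; ring
    have m2 : (a ^ 3) * B = a ^ 2 * (a * A + 1) := by rw [← hB1]; ring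
    cases h00 : y 0 <;> cases h11 : y 1 <;> cases h22 : y 2 <;>
      simp [h00, h11, h22] at hy' <;> simp [wt, vv, f210] <;> nlinarith

end

end Pool.Agent.Q294.R210
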